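import Pool.Agent.N841.BI.Main

/-!
# Barely independent families and the splitting number

Let `X` be a set whose cardinality has uncountable cofinality, for instance `ω₁`. There is a
barely independent family over `#X` if and only if there is a sequence of subsets of `ω`, indexed
by `X`, such that every infinite subset of `ω` is split by all but fewer than `#X` of its terms.
The existence of such a family implies `𝔰 ≤ #X` and `cof #X ≤ 𝔯`. In particular there is no
barely independent family over `ω₁` if `ω₁ < 𝔰`, whatever the value of `𝔯`.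
-/

open Set Cardinal

namespace Pool.Agent.Results.MP_ce2de7_lc.SplittingNumber

open N841.BI

theorem result (X : Type) (hX : ℵ₀ < (#X).ord.cof) :
    ((∃ 𝓘 : Set (Set X), BarelyIndependent 𝓘) ↔ ∃ S : X → Set ℕ, TailSplitting S) ∧
    ((∃ 𝓘 : Set (Set X), BarelyIndependent 𝓘) →
      splittingNumber ≤ #X ∧ (#X).ord.cof ≤ reapingNumber) := by
  refine ⟨⟨?_, ?_⟩, ?_⟩
  · rintro ⟨𝓘, h⟩
    exact tail_of_barely hX h
  · rintro ⟨S, hS⟩
    exact barely_of_tail hX hS
  · rintro ⟨𝓘, h⟩
    obtain ⟨S, hS⟩ := tail_of_barely hX h
    exact ⟨splitting_le hS, cof_le_reaping hX hS⟩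

end Pool.Agent.Results.MP_ce2de7_lc.SplittingNumber
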